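import Mathlib

namespace Pool.Agent.Results.MP_523fe6_co.LogConcaveAtOne

open Polynomial Finset

/-- The polynomial `((m multichoose a)) = (1/a!) * ∏_{s<a} (m + s)` in `ℚ[m]`. -/
noncomputable def rising (a : ℕ) : ℚ[X] :=
  C (1 / (a.factorial : ℚ)) * ∏ s ∈ range a, (X + C (s : ℚ))

/-- The polynomial `S_n(m,t)`, `n = 2r+1`, as a polynomial in `t` (the outer variable `X`) with
coefficients in `ℚ[m]`. -/
noncomputable def S (r : ℕ) : ℚ[X][X] :=
  ∑ i ∈ range r, (∑ s ∈ range (r - i), (X : ℚ[X][X]) ^ (i + 2 * s)) *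
    C (rising i * rising (2 * r + 1 - i))

/-- The coefficient of `m^l` of a polynomial in `m`, for an arbitrary integer `l`
(zero for negative `l`). -/
noncomputable def coeffZ (p : ℚ[X]) (l : ℤ) : ℚ := if 0 ≤ l then p.coeff l.toNat else 0

/-! ### recursion and summation identities -/

lemma rising_succ (a : ℕ) : ((a : ℚ[X]) + 1) * rising (a + 1) = (X + C (a : ℚ)) * rising a := by
  unfold rising
  rw [prod_range_succ, Nat.factorial_succ]
  have h1 : ((a : ℚ[X]) + 1) = C ((a : ℚ) + 1) := by simp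
  rw [h1]
  have h2 : (C ((a : ℚ) + 1) : ℚ[X]) * C (1 / (((a + 1) * a.factorial : ℕ) : ℚ))
      = C (1 / (a.factorial : ℚ)) := by
    rw [← C_mul]
    congr 1
    have : (a.factorial : ℚ) ≠ 0 := by exact_mod_cast a.factorial_ne_zero
    have h3 : ((a : ℚ) + 1) ≠ 0 := by positivity
    push_cast
    field_simp
  calc C ((a : ℚ) + 1) * (C (1 / (((a + 1) * a.factorial : ℕ) : ℚ)) *
        ((∏ s ∈ range a, (X + C (s : ℚ))) * (X + C (a : ℚ))))
      = (C ((a : ℚ) + 1) * C (1 / (((a + 1) * a.factorial : ℕ) : ℚ))) *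
        ((∏ s ∈ range a, (X + C (s : ℚ))) * (X + C (a : ℚ))) := by ring
    _ = _ := by rw [h2]; ring

lemma rising_zero : rising 0 = 1 := by simp [rising]

/-- telescoping sum -/
lemma telescope (n k : ℕ) (hk : k ≤ n) :
    X * ∑ i ∈ range k, ((n : ℚ[X]) - 2 * (i : ℚ[X])) * (rising i * rising (n - i)) =
      ((k : ℚ[X]) * rising k) * ((((n - k : ℕ) : ℚ[X]) + 1) * rising (n - k + 1)) := by
  induction k with
  | zero => simp
  | succ k ih =>
    have hk' : k ≤ n := by omega
    rw [sum_range_succ, mul_add, ih hk']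
    obtain ⟨d, rfl⟩ : ∃ d, n = k + 1 + d := ⟨n - (k + 1), by omega⟩
    have e1 : k + 1 + d - k = d + 1 := by omega
    have e2 : k + 1 + d - (k + 1) = d := by omega
    rw [e1, e2]
    have r1 := rising_succ k
    have r2 := rising_succ d
    have r3 := rising_succ (d + 1)
    push_cast at *
    rw [r3, r1, r2]
    have h4 : (C (k : ℚ) : ℚ[X]) = (k : ℚ[X]) := by simp
    have h5 : (C ((d : ℚ) + 1) : ℚ[X]) = (d : ℚ[X]) + 1 := by simp
    have h6 : (C (d : ℚ) : ℚ[X]) = (d : ℚ[X]) := by simp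
    rw [h4, h5, h6]
    rw [h6] at r2
    linear_combination ((X : ℚ[X]) + k) * rising k * r2

/-- Vandermonde -/
lemma vandermonde (k : ℕ) :
    ∑ p ∈ antidiagonal k, rising p.1 * rising p.2 = (rising k).comp (2 * X) := by
  induction k with
  | zero => simp [rising_zero]
  | succ k ih =>
    have hk : ((k : ℚ[X]) + 1) ≠ 0 := by
      have : ((k : ℚ[X]) + 1) = C ((k : ℚ) + 1) := by simp
      rw [this, Ne, C_eq_zero]
      positivity
    apply mul_left_cancel₀ hk
    have hr : ((k : ℚ[X]) + 1) * (rising (k + 1)).comp (2 * X) =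
        (2 * X + (k : ℚ[X])) * (rising k).comp (2 * X) := by
      have h := congrArg (fun p : ℚ[X] => p.comp (2 * X)) (rising_succ k)
      simpa using h
    rw [hr, ← ih]
    -- left side
    have h1 : ((k : ℚ[X]) + 1) * ∑ p ∈ antidiagonal (k + 1), rising p.1 * rising p.2 =
        ∑ p ∈ antidiagonal (k + 1), ((p.1 : ℚ[X]) * rising p.1 * rising p.2 +
          rising p.1 * ((p.2 : ℚ[X]) * rising p.2)) := by
      rw [mul_sum]
      apply sum_congr rfl
      intro p hp
      have : p.1 + p.2 = k + 1 := mem_antidiagonal.mp hp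
      have h2 : ((k : ℚ[X]) + 1) = (p.1 : ℚ[X]) + (p.2 : ℚ[X]) := by
        exact_mod_cast this.symm
      rw [h2]; ring
    rw [h1, sum_add_distrib]
    have h3 : ∑ p ∈ antidiagonal (k + 1), (p.1 : ℚ[X]) * rising p.1 * rising p.2 =
        ∑ p ∈ antidiagonal k, (X + (p.1 : ℚ[X])) * rising p.1 * rising p.2 := by
      rw [Finset.Nat.antidiagonal_succ, sum_cons, sum_map]
      simp only [Nat.cast_zero, zero_mul, zero_add]
      apply sum_congr rfl
      intro p _
      have := rising_succ p.1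
      simp only [Function.Embedding.prodMap, Function.Embedding.coeFn_mk, Prod.map,
        Function.Embedding.refl_apply, Nat.succ_eq_add_one]
      push_cast
      rw [this]
      simp
    have h4 : ∑ p ∈ antidiagonal (k + 1), rising p.1 * ((p.2 : ℚ[X]) * rising p.2) =
        ∑ p ∈ antidiagonal k, rising p.1 * ((X + (p.2 : ℚ[X])) * rising p.2) := by
      rw [Finset.Nat.antidiagonal_succ', sum_cons, sum_map]
      simp only [Nat.cast_zero, zero_mul, mul_zero, zero_add]
      apply sum_congr rfl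
      intro p _
      have := rising_succ p.2
      simp only [Function.Embedding.prodMap, Function.Embedding.coeFn_mk, Prod.map,
        Function.Embedding.refl_apply, Nat.succ_eq_add_one]
      push_cast
      rw [this]
      simp
    rw [h3, h4, ← sum_add_distrib, mul_sum]
    apply sum_congr rfl
    intro p hp
    have : p.1 + p.2 = k := mem_antidiagonal.mp hp
    have h2 : (k : ℚ[X]) = (p.1 : ℚ[X]) + (p.2 : ℚ[X]) := by
      exact_mod_cast this.symm
    rw [h2]; ring


/-! ### the closed form -/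

/-- auxiliary products -/
noncomputable def fpol (r : ℕ) : ℚ[X] := ∏ j ∈ range r, (X + C ((j : ℚ) + 1))

/-- auxiliary products -/
noncomputable def gpol (r : ℕ) : ℚ[X] := ∏ j ∈ range r, (X + C ((j : ℚ) + 1 / 2))

lemma succ_mul_rising (r : ℕ) :
    ((r : ℚ[X]) + 1) * rising (r + 1) = C (1 / (r.factorial : ℚ)) * (X * fpol r) := by
  have h := rising_succ r
  rw [h]
  unfold rising fpol
  have h2 : (X + C (r : ℚ)) * ∏ s ∈ range r, (X + C (s : ℚ)) =
      X * ∏ j ∈ range r, (X + C ((j : ℚ) + 1)) := by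
    have h3 := prod_range_succ (fun s : ℕ => (X + C (s : ℚ) : ℚ[X])) r
    have h4 := prod_range_succ' (fun s : ℕ => (X + C (s : ℚ) : ℚ[X])) r
    rw [mul_comm, ← h3, h4]
    push_cast
    simp [mul_comm]
  calc _ = C (1 / (r.factorial : ℚ)) * ((X + C (r : ℚ)) * ∏ s ∈ range r, (X + C (s : ℚ))) := by
        ring
    _ = _ := by rw [h2]

lemma prod_two_mul (r : ℕ) :
    ∏ s ∈ range (2 * r + 1), (2 * X + C (s : ℚ) : ℚ[X]) =
      2 * (C (4 ^ r) * (X * fpol r * gpol r)) := by
  induction r with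
  | zero => simp [fpol, gpol]
  | succ r ih =>
    have e : 2 * (r + 1) + 1 = 2 * r + 1 + 1 + 1 := by ring
    rw [e, prod_range_succ, prod_range_succ, ih]
    unfold fpol gpol
    rw [prod_range_succ _ r, prod_range_succ _ r]
    have h1 : (2 * X + C ((2 * r + 1 : ℕ) : ℚ) : ℚ[X]) = 2 * (X + C ((r : ℚ) + 1 / 2)) := by
      have : (2 : ℚ[X]) = C 2 := (map_ofNat C 2).symm
      rw [this, mul_add, ← C_mul]
      congr 2
      push_cast; ring
    have h2 : (2 * X + C ((2 * r + 1 + 1 : ℕ) : ℚ) : ℚ[X]) = 2 * (X + C ((r : ℚ) + 1)) := by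
      have : (2 : ℚ[X]) = C 2 := (map_ofNat C 2).symm
      rw [this, mul_add, ← C_mul]
      congr 2
      push_cast; ring
    rw [h1, h2]
    have h3 : (C (4 ^ (r + 1)) : ℚ[X]) = 4 * C (4 ^ r) := by
      have : (4 : ℚ[X]) = C 4 := (map_ofNat C 4).symm
      rw [this, ← C_mul]; congr 1; ring
    rw [h3]; ring

lemma rising_comp (r : ℕ) :
    (rising (2 * r + 1)).comp (2 * X) =
      2 * (C (4 ^ r / ((2 * r + 1).factorial : ℚ)) * (X * fpol r * gpol r)) := by
  have h1 : (rising (2 * r + 1)).comp (2 * X) =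
      C (1 / ((2 * r + 1).factorial : ℚ)) * ∏ s ∈ range (2 * r + 1), (2 * X + C (s : ℚ) : ℚ[X]) := by
    unfold rising
    rw [mul_comp, C_comp, Polynomial.prod_comp]
    congr 1
    apply prod_congr rfl
    intro s _
    rw [add_comp, X_comp, C_comp]
  rw [h1, prod_two_mul]
  have : (C (4 ^ r / ((2 * r + 1).factorial : ℚ)) : ℚ[X]) =
      C (1 / ((2 * r + 1).factorial : ℚ)) * C (4 ^ r) := by
    rw [← C_mul]; congr 1; ring
  rw [this]; ring

lemma S_eval_one (r : ℕ) : (S r).eval 1 =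
    ∑ i ∈ range r, ((r : ℚ[X]) - (i : ℚ[X])) * (rising i * rising (2 * r + 1 - i)) := by
  unfold S
  rw [eval_finsetSum]
  apply sum_congr rfl
  intro i hi
  have hi' : i < r := mem_range.mp hi
  rw [eval_mul, eval_C, eval_finsetSum]
  congr 1
  simp only [eval_pow, eval_X, one_pow, sum_const, card_range, nsmul_eq_mul, mul_one]
  rw [Nat.cast_sub hi'.le]

lemma half_sum (r : ℕ) :
    2 * ∑ i ∈ range (r + 1), rising i * rising (2 * r + 1 - i) =
      (rising (2 * r + 1)).comp (2 * X) := by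
  rw [← vandermonde, Finset.Nat.sum_antidiagonal_eq_sum_range_succ_mk]
  have e : (2 * r + 1).succ = (r + 1) + (r + 1) := by omega
  rw [e, sum_range_add (fun k => rising (k, 2 * r + 1 - k).1 * rising (k, 2 * r + 1 - k).2)
    (r + 1) (r + 1)]
  simp only []
  have h : ∑ x ∈ range (r + 1), rising (r + 1 + x) * rising (2 * r + 1 - (r + 1 + x)) =
      ∑ i ∈ range (r + 1), rising i * rising (2 * r + 1 - i) := by
    rw [← sum_range_reflect]
    apply sum_congr rfl
    intro i hi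
    have hi' : i < r + 1 := mem_range.mp hi
    have e1 : r + 1 + (r + 1 - 1 - i) = 2 * r + 1 - i := by omega
    have e2 : 2 * r + 1 - (2 * r + 1 - i) = i := by omega
    rw [e1, e2, mul_comm]
  rw [h]; ring

theorem closed_form (r : ℕ) : 2 * (S r).eval 1 =
    X * fpol r * (C (1 / (r.factorial : ℚ) ^ 2) * fpol r -
      C (4 ^ r / ((2 * r + 1).factorial : ℚ)) * gpol r) := by
  have hA := half_sum r
  rw [rising_comp] at hA
  have hA' : ∑ i ∈ range (r + 1), rising i * rising (2 * r + 1 - i) =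
      C (4 ^ r / ((2 * r + 1).factorial : ℚ)) * (X * fpol r * gpol r) := by
    have h2 : (2 : ℚ[X]) ≠ 0 := two_ne_zero
    exact mul_left_cancel₀ h2 hA
  have hB := telescope (2 * r + 1) (r + 1) (by omega)
  have e1 : 2 * r + 1 - (r + 1) = r := by omega
  rw [e1] at hB
  have e2 : (((r + 1 : ℕ) : ℚ[X]) * rising (r + 1)) = ((r : ℚ[X]) + 1) * rising (r + 1) := by
    push_cast; ring
  rw [e2, succ_mul_rising] at hB
  have hsum : ∑ i ∈ range (r + 1), (((2 * r + 1 : ℕ) : ℚ[X]) - 2 * (i : ℚ[X])) *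
      (rising i * rising (2 * r + 1 - i)) =
      2 * (S r).eval 1 + ∑ i ∈ range (r + 1), rising i * rising (2 * r + 1 - i) := by
    rw [S_eval_one, mul_sum]
    have h3 : ∑ i ∈ range r, 2 * (((r : ℚ[X]) - (i : ℚ[X])) * (rising i * rising (2 * r + 1 - i)))
        = ∑ i ∈ range (r + 1),
          2 * (((r : ℚ[X]) - (i : ℚ[X])) * (rising i * rising (2 * r + 1 - i))) := by
      rw [sum_range_succ]; simp
    rw [h3, ← sum_add_distrib]
    apply sum_congr rfl
    intro i _
    push_cast; ring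
  rw [hsum, hA'] at hB
  have hX : (X : ℚ[X]) ≠ 0 := X_ne_zero
  apply mul_left_cancel₀ hX
  have hC : (C (1 / (r.factorial : ℚ) ^ 2) : ℚ[X]) =
      C (1 / (r.factorial : ℚ)) * C (1 / (r.factorial : ℚ)) := by
    rw [← C_mul]; congr 1; ring
  rw [hC]
  linear_combination hB

/-! ### log-concavity and linear factors -/

/-- strong form of log-concavity for polynomials with nonnegative coefficients -/
def LC (p : ℝ[X]) : Prop :=
  (∀ i, 0 ≤ p.coeff i) ∧
    ∀ i j, i ≤ j → p.coeff i * p.coeff (j + 2) ≤ p.coeff (i + 1) * p.coeff (j + 1)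

lemma coeff_mul_linear_zero (p : ℝ[X]) (u v : ℝ) :
    (p * (C u * X + C v)).coeff 0 = v * p.coeff 0 := by
  rw [mul_add, coeff_add, mul_coeff_zero, mul_coeff_zero]
  simp [mul_comm]

lemma coeff_mul_linear_succ (p : ℝ[X]) (u v : ℝ) (k : ℕ) :
    (p * (C u * X + C v)).coeff (k + 1) = u * p.coeff k + v * p.coeff (k + 1) := by
  rw [mul_add, coeff_add, coeff_mul_C, ← mul_assoc, coeff_mul_X, coeff_mul_C]
  ring

lemma LC.mul_linear {p : ℝ[X]} (hp : LC p) {u v : ℝ} (hu : 0 ≤ u) (hv : 0 ≤ v) :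
    LC (p * (C u * X + C v)) := by
  obtain ⟨h0, h1⟩ := hp
  refine ⟨?_, ?_⟩
  · intro i
    cases i with
    | zero => rw [coeff_mul_linear_zero]; exact mul_nonneg hv (h0 0)
    | succ i =>
      rw [coeff_mul_linear_succ]
      exact add_nonneg (mul_nonneg hu (h0 _)) (mul_nonneg hv (h0 _))
  · intro i j hij
    cases i with
    | zero =>
      rw [coeff_mul_linear_zero, coeff_mul_linear_succ, coeff_mul_linear_succ,
        coeff_mul_linear_succ]
      have a1 := h1 0 j (Nat.zero_le _)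
      have a2 : 0 ≤ u ^ 2 * (p.coeff 0 * p.coeff j) :=
        mul_nonneg (sq_nonneg u) (mul_nonneg (h0 _) (h0 _))
      have a3 : 0 ≤ u * v * (p.coeff (0 + 1) * p.coeff j) :=
        mul_nonneg (mul_nonneg hu hv) (mul_nonneg (h0 _) (h0 _))
      have a4 := mul_le_mul_of_nonneg_left a1 (sq_nonneg v)
      nlinarith [a2, a3, a4]
    | succ i =>
      obtain ⟨j, rfl⟩ : ∃ j', j = j' + 1 := ⟨j - 1, by omega⟩
      have hij' : i ≤ j := by omega
      rw [coeff_mul_linear_succ, coeff_mul_linear_succ, coeff_mul_linear_succ,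
        coeff_mul_linear_succ]
      -- a_i a_{j+2} ≤ a_{i+1} a_{j+1}
      have b1 := h1 i j hij'
      -- a_{i+1} a_{j+3} ≤ a_{i+2} a_{j+2}
      have b2 := h1 (i + 1) (j + 1) (by omega)
      -- a_i a_{j+3} ≤ a_{i+1} a_{j+2}
      have b3 := h1 i (j + 1) (by omega)
      -- a_{i+1} a_{j+2} ≤ a_{i+2} a_{j+1}
      have b4 : p.coeff (i + 1) * p.coeff (j + 2) ≤ p.coeff (i + 1 + 1) * p.coeff (j + 1) := by
        rcases Nat.eq_or_lt_of_le hij' with h | h
        · subst h; exact le_of_eq (mul_comm _ _)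
        · obtain ⟨j', rfl⟩ : ∃ j', j = j' + 1 := ⟨j - 1, by omega⟩
          exact h1 (i + 1) (j' + 1) (by omega)
      have c1 := mul_le_mul_of_nonneg_left b1 (sq_nonneg u)
      have c2 := mul_le_mul_of_nonneg_left b2 (sq_nonneg v)
      have c3 := mul_le_mul_of_nonneg_left (b3.trans b4) (mul_nonneg hu hv)
      have e1 : j + 1 + 1 = j + 2 := rfl
      have e2 : j + 1 + 2 = j + 3 := rfl
      have e3 : i + 1 + 1 = i + 2 := rfl
      rw [e1, e3] at *
      rw [e2] at *
      nlinarith [c1, c2, c3]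

lemma LC_C {c : ℝ} (hc : 0 ≤ c) : LC (C c) := by
  refine ⟨?_, ?_⟩
  · intro i
    rw [coeff_C]; split_ifs <;> simp [hc]
  · intro i j _
    rw [coeff_C, coeff_C, coeff_C, coeff_C]
    simp

lemma LC.mul_prod {ι : Type*} (s : Finset ι) (v : ι → ℝ) (hv : ∀ i ∈ s, 0 ≤ v i)
    {p : ℝ[X]} (hp : LC p) : LC (p * ∏ i ∈ s, (X + C (v i))) := by
  classical
  induction s using Finset.induction_on with
  | empty => simpa using hp
  | insert a s ha ih =>
    rw [prod_insert ha]
    have h1 := ih (fun i hi => hv i (mem_insert_of_mem hi))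
    have h2 := h1.mul_linear zero_le_one (hv a (mem_insert_self _ _))
    have e : p * ((X + C (v a)) * ∏ i ∈ s, (X + C (v i))) =
        (p * ∏ i ∈ s, (X + C (v i))) * (C 1 * X + C (v a)) := by
      rw [C_1, one_mul]; ring
    rw [e]; exact h2

/-! ### real-rootedness of the second factor -/

/-- `a ∏ (X + j) - b ∏ (X + j - 1/2)` over the reals -/
noncomputable def P (a b : ℝ) (r : ℕ) : ℝ[X] :=
  C a * ∏ j ∈ range r, (X + C ((j : ℝ) + 1)) - C b * ∏ j ∈ range r, (X + C ((j : ℝ) + 1 / 2))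

lemma eval_P (a b : ℝ) (r : ℕ) (x : ℝ) :
    (P a b r).eval x = a * ∏ j ∈ range r, (x + ((j : ℝ) + 1)) -
      b * ∏ j ∈ range r, (x + ((j : ℝ) + 1 / 2)) := by
  unfold P
  simp [eval_prod]

lemma root_exists {a b : ℝ} (hb : 0 < b) (hab : b < a) (r j : ℕ) (hj : j < r) :
    ∃ x, -((j : ℝ) + 3 / 2) < x ∧ x < -((j : ℝ) + 1) ∧ (P a b (r + 1)).eval x = 0 := by
  set D : ℝ := ∏ i ∈ range (r + 1), ((i : ℝ) - j - 1 / 2) with hD
  have hD0 : D ≠ 0 := by
    rw [hD, prod_ne_zero_iff]
    intro i _ h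
    have h2 : (2 * (i : ℝ)) = 2 * j + 1 := by linarith
    have h3 : (2 * (i : ℤ)) = 2 * j + 1 := by exact_mod_cast h2
    omega
  have h1 : (P a b (r + 1)).eval (-((j : ℝ) + 1)) = -(b * D) := by
    rw [eval_P]
    have z : ∏ i ∈ range (r + 1), (-((j : ℝ) + 1) + ((i : ℝ) + 1)) = 0 := by
      apply prod_eq_zero (mem_range.mpr (by omega : j < r + 1))
      ring
    have z2 : ∏ i ∈ range (r + 1), (-((j : ℝ) + 1) + ((i : ℝ) + 1 / 2)) = D := by
      rw [hD]; apply prod_congr rfl; intro i _; ring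
    rw [z, z2]; ring
  have h2 : (P a b (r + 1)).eval (-((j : ℝ) + 3 / 2)) = a * D := by
    rw [eval_P]
    have z : ∏ i ∈ range (r + 1), (-((j : ℝ) + 3 / 2) + ((i : ℝ) + 1 / 2)) = 0 := by
      apply prod_eq_zero (mem_range.mpr (by omega : j + 1 < r + 1))
      push_cast; ring
    have z2 : ∏ i ∈ range (r + 1), (-((j : ℝ) + 3 / 2) + ((i : ℝ) + 1)) = D := by
      rw [hD]; apply prod_congr rfl; intro i _; ring
    rw [z, z2]; ring
  have ha : 0 < a := hb.trans hab
  have hcont : ContinuousOn (fun x => (P a b (r + 1)).eval x)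
      (Set.Icc (-((j : ℝ) + 3 / 2)) (-((j : ℝ) + 1))) :=
    (Polynomial.continuous _).continuousOn
  have hle : -((j : ℝ) + 3 / 2) ≤ -((j : ℝ) + 1) := by linarith
  rcases lt_or_gt_of_ne hD0 with hneg | hpos
  · have hmem : (0 : ℝ) ∈ Set.Ioo ((P a b (r + 1)).eval (-((j : ℝ) + 3 / 2)))
        ((P a b (r + 1)).eval (-((j : ℝ) + 1))) := by
      rw [h1, h2]; constructor <;> nlinarith
    obtain ⟨x, hx, hx0⟩ := intermediate_value_Ioo hle hcont hmem
    exact ⟨x, hx.1, hx.2, hx0⟩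
  · have hmem : (0 : ℝ) ∈ Set.Ioo ((P a b (r + 1)).eval (-((j : ℝ) + 1)))
        ((P a b (r + 1)).eval (-((j : ℝ) + 3 / 2))) := by
      rw [h1, h2]; constructor <;> nlinarith
    obtain ⟨x, hx, hx0⟩ := intermediate_value_Ioo' hle hcont hmem
    exact ⟨x, hx.1, hx.2, hx0⟩


lemma natDegree_prod_X_add {ι : Type*} (s : Finset ι) (v : ι → ℝ) :
    (∏ i ∈ s, (X + C (v i))).natDegree = s.card := by
  rw [natDegree_prod_of_monic _ _ (fun i _ => monic_X_add_C (v i))]
  simp

lemma monic_prod_X_add {ι : Type*} (s : Finset ι) (v : ι → ℝ) :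
    (∏ i ∈ s, (X + C (v i))).Monic :=
  monic_prod_of_monic _ _ (fun i _ => monic_X_add_C (v i))

lemma coeff_P_top (a b : ℝ) (r : ℕ) : (P a b r).coeff r = a - b := by
  unfold P
  rw [coeff_sub, coeff_C_mul, coeff_C_mul]
  have h1 : (∏ j ∈ range r, (X + C ((j : ℝ) + 1))).coeff r = 1 := by
    have := (monic_prod_X_add (range r) (fun j => (j : ℝ) + 1))
    have h := this.coeff_natDegree
    rwa [natDegree_prod_X_add, card_range] at h
  have h2 : (∏ j ∈ range r, (X + C ((j : ℝ) + 1 / 2))).coeff r = 1 := by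
    have := (monic_prod_X_add (range r) (fun j => (j : ℝ) + 1 / 2))
    have h := this.coeff_natDegree
    rwa [natDegree_prod_X_add, card_range] at h
  rw [h1, h2]; ring

lemma natDegree_P_le (a b : ℝ) (r : ℕ) : (P a b r).natDegree ≤ r := by
  unfold P
  refine (natDegree_sub_le _ _).trans (max_le ?_ ?_)
  · refine (natDegree_C_mul_le _ _).trans ?_
    rw [natDegree_prod_X_add, card_range]
  · refine (natDegree_C_mul_le _ _).trans ?_
    rw [natDegree_prod_X_add, card_range]

lemma eval_P_zero_pos {a b : ℝ} (hb : 0 < b) (hab : b < a) (r : ℕ) : 0 < (P a b r).eval 0 := by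
  rw [eval_P]
  have h1 : ∏ j ∈ range r, ((0 : ℝ) + ((j : ℝ) + 1 / 2)) ≤ ∏ j ∈ range r, (0 + ((j : ℝ) + 1)) := by
    apply prod_le_prod
    · intro i _; positivity
    · intro i _; linarith
  have h2 : 0 < ∏ j ∈ range r, ((0 : ℝ) + ((j : ℝ) + 1 / 2)) := by
    apply prod_pos; intro i _; positivity
  nlinarith

lemma LC_P {a b : ℝ} (hb : 0 < b) (hab : b < a) (r : ℕ) (p : ℝ[X]) (hp : LC p) :
    LC (p * P a b (r + 1)) := by
  have hroots : ∀ j : Fin r, ∃ x, -((j : ℝ) + 3 / 2) < x ∧ x < -((j : ℝ) + 1) ∧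
      (P a b (r + 1)).eval x = 0 := by
    intro j
    have := root_exists hb hab r j j.2
    simpa using this
  choose ξ hξ1 hξ2 hξ3 using hroots
  have hinj : Function.Injective ξ := by
    intro i j hij
    have h1 := hξ1 i
    have h2 := hξ2 i
    have h3 := hξ1 j
    have h4 := hξ2 j
    rw [hij] at h1 h2
    have h5 : (i : ℝ) < (j : ℝ) + 1 := by linarith
    have h6 : (j : ℝ) < (i : ℝ) + 1 := by linarith
    have h7 : (i : ℕ) < (j : ℕ) + 1 := by exact_mod_cast h5
    have h8 : (j : ℕ) < (i : ℕ) + 1 := by exact_mod_cast h6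
    apply Fin.ext; omega
  have hdvd : ∏ j : Fin r, (X - C (ξ j)) ∣ P a b (r + 1) := by
    apply Finset.prod_dvd_of_coprime
    · intro i _ j _ hij
      exact pairwise_coprime_X_sub_C hinj hij
    · intro i _
      exact dvd_iff_isRoot.mpr (hξ3 i)
  obtain ⟨Q, hQ⟩ := hdvd
  have hprod : ∏ j : Fin r, (X - C (ξ j)) = ∏ j : Fin r, (X + C (-ξ j)) := by
    apply prod_congr rfl
    intro i _
    rw [C_neg, sub_eq_add_neg]
  rw [hprod] at hQ
  set M : ℝ[X] := ∏ j : Fin r, (X + C (-ξ j)) with hM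
  have hMmonic : M.Monic := monic_prod_X_add _ _
  have hMdeg : M.natDegree = r := by
    rw [hM, natDegree_prod_X_add]; simp
  have hPtop := coeff_P_top a b (r + 1)
  have hQ0 : Q ≠ 0 := by
    rintro rfl
    rw [hQ, mul_zero, coeff_zero] at hPtop
    linarith
  have hdegP : (P a b (r + 1)).natDegree = r + Q.natDegree := by
    rw [hQ, hMmonic.natDegree_mul' hQ0, hMdeg]
  have hQdeg : Q.natDegree ≤ 1 := by
    have := natDegree_P_le a b (r + 1)
    omega
  have hQform : Q = C (Q.coeff 1) * X + C (Q.coeff 0) := eq_X_add_C_of_natDegree_le_one hQdeg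
  have hc : Q.coeff 1 = a - b := by
    rw [hQ] at hPtop
    have h1 : (M * Q).coeff (r + 1) = Q.coeff 1 := by
      have h2 := coeff_mul_add_eq_of_natDegree_le hMdeg.le hQdeg
      rw [h2]
      have h3 : M.coeff r = 1 := by
        have := hMmonic.coeff_natDegree
        rwa [hMdeg] at this
      rw [h3, one_mul]
    rw [← h1]; exact hPtop
  have hd : 0 < Q.coeff 0 := by
    have h1 := eval_P_zero_pos hb hab (r + 1)
    rw [hQ, eval_mul] at h1
    have h2 : 0 < M.eval 0 := by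
      rw [hM, eval_prod]
      apply prod_pos
      intro i _
      simp only [eval_add, eval_X, eval_C, zero_add]
      have := hξ2 i
      have h3 : (0 : ℝ) ≤ (i : ℕ) := Nat.cast_nonneg _
      linarith
    have h4 : 0 < Q.eval 0 := (mul_pos_iff_of_pos_left h2).mp h1
    rwa [← coeff_zero_eq_eval_zero] at h4
  have hfin := (hp.mul_prod (Finset.univ) (fun j : Fin r => -ξ j) (by
      intro i _
      have := hξ2 i
      have h3 : (0 : ℝ) ≤ (i : ℕ) := Nat.cast_nonneg _
      linarith)).mul_linear (u := Q.coeff 1) (v := Q.coeff 0) (by rw [hc]; linarith) hd.le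
  rw [← hQform, ← hM, mul_assoc, ← hQ] at hfin
  exact hfin

lemma four_pow_lt (r : ℕ) : 4 ^ (r + 1) * ((r + 1).factorial) ^ 2 < (2 * (r + 1) + 1).factorial := by
  induction r with
  | zero => decide
  | succ r ih =>
    have e : 2 * (r + 1 + 1) + 1 = (2 * (r + 1) + 1) + 1 + 1 := by ring
    rw [e, Nat.factorial_succ (2 * (r + 1) + 1 + 1), Nat.factorial_succ (2 * (r + 1) + 1),
      Nat.factorial_succ (r + 1)]
    have h1 : 4 ^ (r + 1 + 1) * ((r + 1 + 1) * (r + 1).factorial) ^ 2 =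
        (4 * (r + 2) ^ 2) * (4 ^ (r + 1) * ((r + 1).factorial) ^ 2) := by ring
    rw [h1]
    have h2 : 4 * (r + 2) ^ 2 ≤ (2 * (r + 1) + 1 + 1 + 1) * (2 * (r + 1) + 1 + 1) := by nlinarith
    calc _ < (4 * (r + 2) ^ 2) * (2 * (r + 1) + 1).factorial :=
          Nat.mul_lt_mul_of_pos_left ih (by positivity)
      _ ≤ ((2 * (r + 1) + 1 + 1 + 1) * (2 * (r + 1) + 1 + 1)) * (2 * (r + 1) + 1).factorial :=
          Nat.mul_le_mul_right _ h2
      _ = _ := by ring

lemma coeff_ineq (r : ℕ) (hr : 1 ≤ r) (l : ℕ) :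
    ((S r).eval 1).coeff l * ((S r).eval 1).coeff (l + 2) ≤ (((S r).eval 1).coeff (l + 1)) ^ 2 := by
  obtain ⟨r, rfl⟩ : ∃ r', r = r' + 1 := ⟨r - 1, by omega⟩
  have hcf := closed_form (r + 1)
  set T : ℚ[X] := (S (r + 1)).eval 1 with hT
  -- transfer to the reals
  set a : ℝ := 1 / ((r + 1).factorial : ℝ) ^ 2 with ha
  set b : ℝ := 4 ^ (r + 1) / ((2 * (r + 1) + 1).factorial : ℝ) with hbdef
  have hf1 : (0 : ℝ) < ((r + 1).factorial : ℝ) := by exact_mod_cast (r + 1).factorial_pos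
  have hf2 : (0 : ℝ) < ((2 * (r + 1) + 1).factorial : ℝ) := by
    exact_mod_cast (2 * (r + 1) + 1).factorial_pos
  have hb : 0 < b := by rw [hbdef]; positivity
  have hab : b < a := by
    rw [ha, hbdef, div_lt_div_iff₀ hf2 (by positivity), one_mul]
    have := four_pow_lt r
    exact_mod_cast this
  have hmapf : (fpol (r + 1)).map (algebraMap ℚ ℝ) =
      ∏ j ∈ range (r + 1), (X + C ((j : ℝ) + 1)) := by
    unfold fpol
    rw [Polynomial.map_prod]
    apply prod_congr rfl
    intro i _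
    simp
  have hmapg : (gpol (r + 1)).map (algebraMap ℚ ℝ) =
      ∏ j ∈ range (r + 1), (X + C ((j : ℝ) + 1 / 2)) := by
    unfold gpol
    rw [Polynomial.map_prod]
    apply prod_congr rfl
    intro i _
    simp
  have hmapP : (C (1 / ((r + 1).factorial : ℚ) ^ 2) * fpol (r + 1) -
      C (4 ^ (r + 1) / ((2 * (r + 1) + 1).factorial : ℚ)) * gpol (r + 1)).map (algebraMap ℚ ℝ) =
      P a b (r + 1) := by
    rw [Polynomial.map_sub, Polynomial.map_mul, Polynomial.map_mul, hmapf, hmapg, map_C, map_C]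
    unfold P
    rw [ha, hbdef]
    simp
  have hLC : LC ((2 * T).map (algebraMap ℚ ℝ)) := by
    rw [hcf, Polynomial.map_mul, hmapP]
    apply LC_P hb hab
    rw [Polynomial.map_mul, hmapf, map_X]
    have h1 : LC ((C (1 : ℝ) : ℝ[X]) * (C 1 * X + C 0)) :=
      (LC_C zero_le_one).mul_linear zero_le_one le_rfl
    have h2 : (C (1 : ℝ) : ℝ[X]) * (C 1 * X + C 0) = X := by simp
    rw [h2] at h1
    exact h1.mul_prod _ _ (fun i _ => by positivity)
  have h := hLC.2 l l le_rfl
  rw [coeff_map, coeff_map, coeff_map, ← map_mul, ← map_mul] at h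
  have h' : (2 * T).coeff l * (2 * T).coeff (l + 2) ≤ (2 * T).coeff (l + 1) * (2 * T).coeff (l + 1) := by
    have := h
    simp only [eq_ratCast] at this
    exact_mod_cast this
  have h2 : (2 : ℚ[X]) = C 2 := (map_ofNat C 2).symm
  rw [h2, coeff_C_mul, coeff_C_mul, coeff_C_mul] at h'
  nlinarith [h']

/-- For every `r ≥ 1` (that is, every odd `n = 2r+1 ≥ 3`) the polynomial `S_n(m,1) ∈ ℚ[m]`
is log-concave: `a_l ^ 2 ≥ a_{l-1} a_{l+1}` for every integer `l`. -/
theorem result : ∀ r : ℕ, 1 ≤ r → ∀ l : ℤ,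
    coeffZ ((S r).eval 1) (l - 1) * coeffZ ((S r).eval 1) (l + 1) ≤
      coeffZ ((S r).eval 1) l ^ 2 := by
  intro r hr l
  rcases lt_or_ge l 1 with hl | hl
  · have h0 : coeffZ ((S r).eval 1) (l - 1) = 0 := by
      unfold coeffZ; rw [if_neg (by omega)]
    rw [h0, zero_mul]; exact sq_nonneg _
  · obtain ⟨k, hk⟩ : ∃ k : ℕ, l = (k : ℤ) + 1 := ⟨(l - 1).toNat, by omega⟩
    subst hk
    have h1 : coeffZ ((S r).eval 1) ((k : ℤ) + 1 - 1) = ((S r).eval 1).coeff k := by
      unfold coeffZ; rw [if_pos (by omega)]; congr 1; omega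
    have h2 : coeffZ ((S r).eval 1) ((k : ℤ) + 1 + 1) = ((S r).eval 1).coeff (k + 2) := by
      unfold coeffZ; rw [if_pos (by omega)]; congr 1
    have h3 : coeffZ ((S r).eval 1) ((k : ℤ) + 1) = ((S r).eval 1).coeff (k + 1) := by
      unfold coeffZ; rw [if_pos (by omega)]; congr 1
    rw [h1, h2, h3]
    exact coeff_ineq r hr k

end Pool.Agent.Results.MP_523fe6_co.LogConcaveAtOne
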