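import Mathlib
import Pool.Agent.H65.LQ.Ends
import Pool.Agent.H65.LQ.Small

namespace Pool.Agent.Results.MP_523fe6_co.LogConcaveEachPower

open Polynomial Finset

/-- The polynomial `((m multichoose a)) = (1/a!) * ∏_{s<a} (m + s)` in `ℚ[m]`. -/
noncomputable def rising (a : ℕ) : ℚ[X] :=
  C (1 / (a.factorial : ℚ)) * ∏ s ∈ range a, (X + C (s : ℚ))

/-- The polynomial `S_n(m,t)`, `n = 2r+1`, as a polynomial in `t` (the outer variable `X`) with
coefficients in `ℚ[m]`. -/
noncomputable def S (r : ℕ) : ℚ[X][X] :=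
  ∑ i ∈ range r, (∑ s ∈ range (r - i), (X : ℚ[X][X]) ^ (i + 2 * s)) *
    C (rising i * rising (2 * r + 1 - i))

/-- The coefficient of `m^l` of a polynomial in `m`, for an arbitrary integer `l`
(zero for negative `l`). -/
noncomputable def coeffZ (p : ℚ[X]) (l : ℤ) : ℚ := if 0 ≤ l then p.coeff l.toNat else 0

lemma rising_map (a : ℕ) : (rising a).map (algebraMap ℚ ℝ) = LQ.rR a := by
  unfold rising LQ.rR
  rw [Polynomial.map_mul, Polynomial.map_C, Polynomial.map_prod]
  congr 1
  · simp
  · apply prod_congr rfl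
    intro s _
    simp

lemma coeff_cast (a b l : ℕ) : (((rising a * rising b).coeff l : ℚ) : ℝ) =
    (LQ.rR a * LQ.rR b).coeff l := by
  rw [← rising_map, ← rising_map, ← Polynomial.map_mul, coeff_map]
  simp

/-- the coefficient of `t^k` -/
lemma coeff_S (r k : ℕ) : (S r).coeff k =
    ∑ i ∈ (range r).filter (fun i => i ≤ k ∧ i % 2 = k % 2 ∧ k + i < 2 * r),
      rising i * rising (2 * r + 1 - i) := by
  unfold S
  rw [finsetSum_coeff, sum_filter]
  apply sum_congr rfl
  intro i hi
  rw [mem_range] at hi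
  rw [coeff_mul_C, finsetSum_coeff]
  have h1 : ∀ s ∈ range (r - i), ((X : ℚ[X][X]) ^ (i + 2 * s)).coeff k =
      if s = (k - i) / 2 then (if i ≤ k ∧ i % 2 = k % 2 then 1 else 0) else 0 := by
    intro s _
    rw [coeff_X_pow]
    by_cases h : i ≤ k ∧ i % 2 = k % 2
    · rw [if_pos h]
      by_cases h2 : s = (k - i) / 2
      · rw [if_pos (by omega), if_pos h2]
      · rw [if_neg (by omega), if_neg h2]
    · rw [if_neg h, if_neg (by omega)]
      simp
  rw [sum_congr rfl h1, sum_ite_eq']
  by_cases h : i ≤ k ∧ i % 2 = k % 2 ∧ k + i < 2 * r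
  · rw [if_pos h, if_pos (by rw [mem_range]; omega), if_pos ⟨h.1, h.2.1⟩, one_mul]
  · rw [if_neg h]
    by_cases h2 : i ≤ k ∧ i % 2 = k % 2
    · rw [if_neg (by rw [mem_range]; omega), zero_mul]
    · rw [if_neg h2]
      simp

lemma A_sum (n l : ℕ) : ∀ k : ℕ, LQ.A n k l =
    ∑ i ∈ (range (k + 1)).filter (fun i => i % 2 = k % 2), LQ.P n i l
  | 0 => by simp [LQ.A, sum_filter]
  | 1 => by simp [LQ.A, sum_filter, sum_range_succ]
  | k + 2 => by
    have ih := A_sum n l k
    show LQ.A n k l + LQ.P n (k + 2) l = _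
    have e1 : (range (k + 2 + 1)).filter (fun i => i % 2 = (k + 2) % 2) =
        insert (k + 2) ((range (k + 1)).filter (fun i => i % 2 = k % 2)) := by
      ext i
      simp only [mem_filter, mem_range, mem_insert]
      omega
    rw [e1, sum_insert (by simp), ih]
    ring

lemma logconc_A (r k l : ℕ) (hk : k < r) :
    LQ.A (2 * r + 1) k l * LQ.A (2 * r + 1) k (l + 2) ≤ LQ.A (2 * r + 1) k (l + 1) ^ 2 := by
  rcases lt_or_ge r 20 with h | h
  · exact LQ.logconc_small r k l h hk
  · exact LQ.logconc_large (2 * r + 1) k l (by omega) (by omega)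

lemma coeff_eq_A (r k m : ℕ)
    (h : (range r).filter (fun i => i ≤ k ∧ i % 2 = k % 2 ∧ k + i < 2 * r) =
      (range (m + 1)).filter (fun i => i % 2 = m % 2)) (l : ℕ) :
    ((((S r).coeff k).coeff l : ℚ) : ℝ) = LQ.A (2 * r + 1) m l := by
  rw [coeff_S, h, finsetSum_coeff, A_sum]
  push_cast
  apply sum_congr rfl
  intro i _
  rw [coeff_cast]
  rfl

lemma logconc_nat (r k l : ℕ) :
    ((S r).coeff k).coeff l * ((S r).coeff k).coeff (l + 2) ≤ ((S r).coeff k).coeff (l + 1) ^ 2 := by
  have key : ∀ m : ℕ, m < r →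
      (range r).filter (fun i => i ≤ k ∧ i % 2 = k % 2 ∧ k + i < 2 * r) =
        (range (m + 1)).filter (fun i => i % 2 = m % 2) →
      ((S r).coeff k).coeff l * ((S r).coeff k).coeff (l + 2) ≤
        ((S r).coeff k).coeff (l + 1) ^ 2 := by
    intro m hm h
    have h1 := logconc_A r m l hm
    rw [← coeff_eq_A r k m h, ← coeff_eq_A r k m h, ← coeff_eq_A r k m h] at h1
    exact_mod_cast h1
  rcases lt_or_ge k r with h | h
  · apply key k h
    ext i
    simp only [mem_filter, mem_range]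
    omega
  · rcases lt_or_ge (2 * r - 2) k with h2 | h2
    · have h3 : (range r).filter (fun i => i ≤ k ∧ i % 2 = k % 2 ∧ k + i < 2 * r) = ∅ := by
        ext i
        simp only [mem_filter, mem_range, notMem_empty, iff_false]
        omega
      rw [coeff_S, h3, sum_empty]
      simp
    · rcases Nat.eq_zero_or_pos r with h0 | h0
      · rw [coeff_S, h0]
        simp
      · apply key (2 * r - 2 - k) (by omega)
        ext i
        simp only [mem_filter, mem_range]
        omega

/-- Question Q1, in its positive form: for every `r ≥ 1` (that is every odd `n = 2r+1 ≥ 3`), for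
every power `t^k` and every integer `l`,
`c_{l-1,k} c_{l+1,k} ≤ c_{l,k}^2`. -/
theorem result (r : ℕ) (_hr : 1 ≤ r) (k : ℕ) (l : ℤ) :
    coeffZ ((S r).coeff k) (l - 1) * coeffZ ((S r).coeff k) (l + 1) ≤
      coeffZ ((S r).coeff k) l ^ 2 := by
  unfold coeffZ
  rcases le_or_gt 1 l with h | h
  · obtain ⟨m, rfl⟩ : ∃ m : ℕ, l = (m : ℤ) + 1 := ⟨(l - 1).toNat, by omega⟩
    rw [if_pos (by omega), if_pos (by omega), if_pos (by omega)]
    have e1 : ((m : ℤ) + 1 - 1).toNat = m := by omega
    have e2 : ((m : ℤ) + 1 + 1).toNat = m + 2 := by omega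
    have e3 : ((m : ℤ) + 1).toNat = m + 1 := by omega
    rw [e1, e2, e3]
    exact logconc_nat r k m
  · rw [if_neg (by omega), zero_mul]
    positivity

end Pool.Agent.Results.MP_523fe6_co.LogConcaveEachPower
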